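import Mathlib
import Pool.Agent.helper68.FY.Spec
import Pool.Agent.helper82.Weil.N

/-!
# Row BUB: Hoelder and the Weil moment
-/

set_option autoImplicit false

namespace Pool.Agent.helper68.FY

open Finset

theorem BUB_NB (Q L : ℕ) (hL : 1 ≤ L) (hLQ : L ≤ Q) :
    ((NB Q L).card : ℝ) ≤ 81 * (Q : ℝ) ^ 2 * (L : ℝ) ^ 2 := by
  classical
  have hsub : NB Q L ⊆ Fintype.piFinset (fun i : Fin 4 =>
      (![Finset.Icc (-(Q : ℤ)) Q, Finset.Icc (-(Q : ℤ)) Q, Finset.Icc (-(L : ℤ)) L,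
        Finset.Icc (-(L : ℤ)) L] : Fin 4 → Finset ℤ) i) := by
    intro g hg
    rw [NB, Finset.mem_filter, box, Fintype.mem_piFinset] at hg
    obtain ⟨hb, _, h2, h3⟩ := hg
    rw [Fintype.mem_piFinset]
    intro i
    fin_cases i
    · exact hb 0
    · exact hb 1
    · exact Finset.mem_Icc.2 (abs_le.1 h2)
    · exact Finset.mem_Icc.2 (abs_le.1 h3)
  have h1 := Finset.card_le_card hsub
  rw [Fintype.card_piFinset, Fin.prod_univ_four] at h1
  have e1 : (Finset.Icc (-(Q : ℤ)) Q).card = 2 * Q + 1 := by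
    rw [Int.card_Icc]; omega
  have e2 : (Finset.Icc (-(L : ℤ)) L).card = 2 * L + 1 := by
    rw [Int.card_Icc]; omega
  have h2 : (NB Q L).card ≤ (2 * Q + 1) * (2 * Q + 1) * (2 * L + 1) * (2 * L + 1) := by
    refine h1.trans (le_of_eq ?_)
    change (Finset.Icc (-(Q : ℤ)) Q).card * (Finset.Icc (-(Q : ℤ)) Q).card *
      (Finset.Icc (-(L : ℤ)) L).card * (Finset.Icc (-(L : ℤ)) L).card = _
    rw [e1, e2]
  have h3 : (2 * Q + 1) * (2 * Q + 1) ≤ 9 * Q ^ 2 := by nlinarith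
  have h4 : (2 * L + 1) * (2 * L + 1) ≤ 9 * L ^ 2 := by nlinarith
  have h5 : (NB Q L).card ≤ 81 * Q ^ 2 * L ^ 2 := by
    calc (NB Q L).card ≤ (2 * Q + 1) * (2 * Q + 1) * (2 * L + 1) * (2 * L + 1) := h2
      _ = ((2 * Q + 1) * (2 * Q + 1)) * ((2 * L + 1) * (2 * L + 1)) := by ring
      _ ≤ (9 * Q ^ 2) * (9 * L ^ 2) := Nat.mul_le_mul h3 h4
      _ = 81 * Q ^ 2 * L ^ 2 := by ring
  exact_mod_cast h5

theorem BUB_ix (p : ℕ) [Fact p.Prime] (Q L : ℕ) (B : Finset (ZMod p)) (hL : 1 ≤ L)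
    (hLQ : L ≤ Q) :
    ((ix p Q L B).card : ℝ) ≤ 81 * (Q : ℝ) ^ 2 * (L : ℝ) ^ 2 * (B.card : ℝ) ^ 2 := by
  have h1 : (ix p Q L B).card ≤ (NB Q L).card * (B.card * B.card) := by
    refine (Finset.card_filter_le _ _).trans ?_
    rw [Finset.card_product]
    refine Nat.mul_le_mul_left _ ?_
    rw [Finset.offDiag_card]
    exact Nat.sub_le _ _
  have h2 : ((ix p Q L B).card : ℝ) ≤ (NB Q L).card * ((B.card : ℝ) * B.card) := by
    exact_mod_cast h1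
  refine h2.trans ?_
  have h3 := BUB_NB Q L hL hLQ
  have h4 : (0 : ℝ) ≤ (B.card : ℝ) * B.card := by positivity
  calc ((NB Q L).card : ℝ) * ((B.card : ℝ) * B.card)
      ≤ (81 * (Q : ℝ) ^ 2 * (L : ℝ) ^ 2) * ((B.card : ℝ) * B.card) :=
        mul_le_mul_of_nonneg_right h3 h4
    _ = 81 * (Q : ℝ) ^ 2 * (L : ℝ) ^ 2 * (B.card : ℝ) ^ 2 := by ring

theorem BUB_mom (p : ℕ) [Fact p.Prime] (χ : MulChar (ZMod p) ℂ) (hχ : χ ≠ 1) (W k : ℕ)
    (hWp : W < p) :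
    ∑ j : ZMod p × ZMod p, RR p χ W j ^ (2 * k) ≤
      (k : ℝ) ^ (2 * k) * (W : ℝ) ^ k * (p : ℝ) ^ 2 +
        (W : ℝ) ^ (2 * k) * (2 * k * Real.sqrt p) ^ 2 := by
  classical
  have hinj : Set.InjOn (fun w : ℕ => (w : ZMod p)) (Finset.Icc 1 W : Finset ℕ) := by
    intro a ha b hb hab
    rw [Finset.mem_coe, Finset.mem_Icc] at ha hb
    have h1 : a % p = b % p := (ZMod.natCast_eq_natCast_iff' a b p).1 hab
    rwa [Nat.mod_eq_of_lt (lt_of_le_of_lt ha.2 hWp),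
      Nat.mod_eq_of_lt (lt_of_le_of_lt hb.2 hWp)] at h1
  have hcard : ((Finset.Icc 1 W).image (fun w : ℕ => (w : ZMod p))).card = W := by
    rw [Finset.card_image_of_injOn hinj, Nat.card_Icc]
    omega
  have h1 := Pool.Agent.helper82.Weil.moment_two χ hχ k
    ((Finset.Icc 1 W).image (fun w : ℕ => (w : ZMod p)))
  rw [hcard, ZMod.card] at h1
  rw [Fintype.sum_prod_type]
  refine le_trans (le_of_eq ?_) h1
  refine Finset.sum_congr rfl fun u _ => Finset.sum_congr rfl fun v _ => ?_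
  rw [RR, Finset.sum_image hinj]

theorem BUB : BUB_stmt := by
  intro p _ χ hχ B Q L W k hL hLQ hW hk hWp
  have h1 := Pool.Agent.helper82.Weil.holder_collision (ix p Q L B)
    (fun i => (zz p i.1 i.2.1, zz p i.1 i.2.2)) (RR p χ W) (fun _ => norm_nonneg _) k hk
  have h2 := BUB_mom p χ hχ W k hWp
  have h3 := BUB_ix p Q L B hL hLQ
  have h4 : ((ix p Q L B).card : ℝ) ^ (2 * k - 2) ≤
      (81 * (Q : ℝ) ^ 2 * (L : ℝ) ^ 2 * (B.card : ℝ) ^ 2) ^ (2 * k - 2) :=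
    pow_le_pow_left₀ (by positivity) h3 _
  refine h1.trans ?_
  change ((ix p Q L B).card : ℝ) ^ (2 * k - 2) * (col p Q L B : ℝ) *
    ∑ j : ZMod p × ZMod p, RR p χ W j ^ (2 * k) ≤ _
  have h5 : 0 ≤ ∑ j : ZMod p × ZMod p, RR p χ W j ^ (2 * k) :=
    Finset.sum_nonneg fun j _ => pow_nonneg (norm_nonneg _) _
  refine mul_le_mul (mul_le_mul_of_nonneg_right h4 (Nat.cast_nonneg _)) h2 h5 ?_
  positivity

end Pool.Agent.helper68.FY
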